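import Pool.Agent.H93.ET.Defs

/-!
# Row SUM: the functional vanishes on the idempotents of the classes
-/

set_option autoImplicit false

namespace Pool.Agent.H80.ET

open MeasureTheory AddCircle Finset Pool.Agent.H93.ET Pool.Agent.H87.Synth Pool.Agent.H85.SC

lemma iA_mem (x : ℝ) : iA x = 0 ∨ iA x = 1 := by
  unfold iA; split_ifs <;> simp

lemma iE_mem (x : ℝ) : iE x = 0 ∨ iE x = 1 := by
  unfold iE; split_ifs <;> simp

lemma iE_ne_iA (x : ℝ) : iE x ≠ iA x := by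
  unfold iE iA; split_ifs <;> simp

lemma eq_iA_or_iE (x : ℝ) (i : ℤ) (h : i = 0 ∨ i = 1) : i = iA x ∨ i = iE x := by
  unfold iE iA; split_ifs <;> omega

lemma pt_inj (k : ℕ) (s : Bool) (t t' i i' : ℤ) (h : i = 0 ∨ i = 1) (h' : i' = 0 ∨ i' = 1)
    (he : pt k t i s = pt k t' i' s) : t = t' ∧ i = i' := by
  unfold pt at he
  constructor <;> omega

lemma valA (x : ℝ) (s : ℂ) : (1 - 2 * ((iA x : ℤ) : ℂ)) * s * (x : ℂ) = -s * ((|x| : ℝ) : ℂ) := by
  unfold iA
  split_ifs with h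
  · rw [abs_of_pos h]; push_cast; ring
  · rw [abs_of_nonpos (not_lt.mp h)]; push_cast; ring

lemma valE (x : ℝ) (s : ℂ) : (1 - 2 * ((iE x : ℤ) : ℂ)) * s * (x : ℂ) = s * ((|x| : ℝ) : ℂ) := by
  unfold iE
  split_ifs with h
  · rw [abs_of_pos h]; push_cast; ring
  · rw [abs_of_nonpos (not_lt.mp h)]; push_cast; ring

variable {d : ℕ → ℝ} (D : Dat d) (Λ : L1 →L[ℂ] ℂ)

lemma sumAbs (k m : ℕ) (h1 : D.mu k ≤ m) (h2 : m < D.mu (k + 1)) :
    ∑ t ∈ D.T k m, ((|D.g k t| : ℝ) : ℂ) = 3 ^ k := by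
  have := (D.hT k m h1 h2).2.2
  rw [← Complex.ofReal_sum, this]; push_cast; rfl

lemma sumAB (hp : T_PNT) (hG : GV D Λ) (k m : ℕ) (s : Bool) (h1 : D.mu k ≤ m)
    (h2 : m < D.mu (k + 1)) (h3 : ¬ (k = 0 ∧ m = D.mu 0)) :
    ∑ z ∈ D.AB k m s, Λ (ex z) = -((sg s : ℤ) : ℂ) * 3 ^ k := by
  unfold Dat.AB
  rw [Finset.sum_image, ← sumAbs D k m h1 h2, Finset.mul_sum]
  · refine Finset.sum_congr rfl fun t ht => ?_
    have hg := (D.hT k m h1 h2).2.1 t ht
    rw [hG.1 k t _ s hg (iA_mem _), valA]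
    rintro ⟨hk, ht0, -⟩
    subst hk
    exact h3 ⟨rfl, (hp d D).2.2.2.2.1 0 m (D.mu 0) t h1 h2 le_rfl (D.hmu (Nat.lt_succ_self 0))
      ht ht0⟩
  · intro t _ t' _ he
    exact (pt_inj k s t t' _ _ (iA_mem _) (iA_mem _) he).1

lemma sumAB0 (hG : GV D Λ) (s : Bool) :
    ∑ z ∈ D.AB 0 (D.mu 0) s, Λ (ex z) = 0 := by
  refine Finset.sum_eq_zero fun z hz => ?_
  unfold Dat.AB at hz
  obtain ⟨t, ht, rfl⟩ := Finset.mem_image.mp hz
  exact hG.2.1 t s ht

lemma sumEB (hG : GV D Λ) (k m : ℕ) (s : Bool) (h1 : D.mu k ≤ m)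
    (h2 : m < D.mu (k + 1)) :
    ∑ z ∈ D.EB k m s, Λ (ex z) = ((sg s : ℤ) : ℂ) * 3 ^ k := by
  unfold Dat.EB
  rw [Finset.sum_image, ← sumAbs D k m h1 h2, Finset.mul_sum]
  · refine Finset.sum_congr rfl fun t ht => ?_
    have hg := (D.hT k m h1 h2).2.1 t ht
    rw [hG.1 k t _ s hg (iE_mem _), valE]
    rintro ⟨hk, -, hi⟩
    subst hk
    exact iE_ne_iA _ hi
  · intro t _ t' _ he
    exact (pt_inj k s t t' _ _ (iE_mem _) (iE_mem _) he).1

lemma sg_pm (s : Bool) : sg s = 1 ∨ sg s = -1 := by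
  cases s <;> simp [sg]

lemma sumGA (hc : T_GCT) (hG : GV D Λ) (k : ℕ) (s : Bool) :
    ∑ z ∈ GA k (D.Z k) (sg s), Λ (ex z) = -((sg s : ℤ) : ℂ) * 3 ^ k := by
  obtain ⟨hn, hcard, -, hcp, -⟩ := hc k (D.Z k)
  have h : ∀ z ∈ GA k (D.Z k) (sg s), Λ (ex z) = -((3 : ℂ) ^ k / nc k) * ((sg s : ℤ) : ℂ) := by
    intro z hz
    unfold GA at hz
    obtain ⟨hz1, hz2⟩ := Finset.mem_filter.mp hz
    rw [hG.2.2.1 k z hz1, hcp (sg s) z (sg_pm s) hz2]
  rw [Finset.sum_congr rfl h, Finset.sum_const, (hcard (sg s) (sg_pm s)).1, nsmul_eq_mul]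
  have hn' : (nc k : ℂ) ≠ 0 := by exact_mod_cast hn.ne'
  field_simp

lemma sumGE (hc : T_GCT) (hG : GV D Λ) (k : ℕ) (s : Bool) :
    ∑ z ∈ GE k (D.Z k) (sg s), Λ (ex z) = ((sg s : ℤ) : ℂ) * 3 ^ (k + 1) := by
  obtain ⟨hn, hcard, -, hcp, -⟩ := hc k (D.Z k)
  have h : ∀ z ∈ GE k (D.Z k) (sg s), Λ (ex z) = ((3 : ℂ) ^ k / nc k) * ((sg s : ℤ) : ℂ) := by
    intro z hz
    unfold GE at hz
    obtain ⟨hz1, hz2, hz3⟩ := Finset.mem_filter.mp hz
    rw [hG.2.2.1 k z hz1, hz3]; push_cast; ring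
  rw [Finset.sum_congr rfl h, Finset.sum_const, (hcard (sg s) (sg_pm s)).2, nsmul_eq_mul]
  have hn' : (nc k : ℂ) ≠ 0 := by exact_mod_cast hn.ne'
  push_cast
  field_simp
  ring

lemma cl_blk (k m : ℕ) (s : Bool) (h : D.mu k ≤ m ∧ m < D.mu (k + 1)) :
    cl D (Cl.blk k m s) = D.AB k m s ∪ (if m = D.mu k then D.EP k s else D.EB k (m - 1) s) := by
  show (if D.mu k ≤ m ∧ m < D.mu (k + 1) then
    D.AB k m s ∪ (if m = D.mu k then D.EP k s else D.EB k (m - 1) s) else ∅) = _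
  rw [if_pos h]

lemma cl_blk0 (k m : ℕ) (s : Bool) (h : ¬ (D.mu k ≤ m ∧ m < D.mu (k + 1))) :
    cl D (Cl.blk k m s) = ∅ := by
  show (if D.mu k ≤ m ∧ m < D.mu (k + 1) then
    D.AB k m s ∪ (if m = D.mu k then D.EP k s else D.EB k (m - 1) s) else ∅) = _
  rw [if_neg h]

lemma cl_gad (k : ℕ) (s : Bool) :
    cl D (Cl.gad k s) = GA k (D.Z k) (sg s) ∪ D.EB k (D.mu (k + 1) - 1) s := rfl

lemma cl_par (k : ℕ) (t : ℤ) (s : Bool)
    (h : D.g k t ≠ 0 ∧ ∀ m, D.mu k ≤ m → m < D.mu (k + 1) → t ∉ D.T k m) :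
    cl D (Cl.par k t s) = {pt k t 0 s, pt k t 1 s} := if_pos h

lemma cl_par0 (k : ℕ) (t : ℤ) (s : Bool)
    (h : ¬ (D.g k t ≠ 0 ∧ ∀ m, D.mu k ≤ m → m < D.mu (k + 1) → t ∉ D.T k m)) :
    cl D (Cl.par k t s) = ∅ := if_neg h

/-- the functional vanishes on the idempotents of the classes and outside of the classes -/
theorem sum (h1 : T_PNT) (h2 : T_GCT) (h3 : Pool.Agent.H93.ET.T_DSJ) : T_SUM := by
  intro d D Λ hG
  obtain ⟨hdis, hd2, hd3, hd4⟩ := h3 d D
  constructor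
  · rintro (⟨k, m, s⟩ | ⟨k, s⟩ | ⟨k, t, s⟩)
    · by_cases hv : D.mu k ≤ m ∧ m < D.mu (k + 1)
      swap
      · rw [cl_blk0 D k m s hv, Finset.sum_empty]
      rw [cl_blk D k m s hv]
      split_ifs with hm
      · subst hm
        rw [Finset.sum_union (hd3 k _ s hv.1 hv.2)]
        rcases k with _ | k
        · rw [sumAB0 D Λ hG s]
          simp [Dat.EP]
        · rw [sumAB D Λ h1 hG (k + 1) _ s hv.1 hv.2 (by simp)]
          have : D.EP (k + 1) s = GE k (D.Z k) (sg s) := by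
            simp [Dat.EP]
          rw [this, sumGE D Λ h2 hG k s]
          ring
      · have hm' : D.mu k ≤ m - 1 := by
          have := hv.1
          omega
        have hm'' : m - 1 < D.mu (k + 1) := by
          have := hv.2
          omega
        rw [Finset.sum_union (hd2 k m (m - 1) s hv.1 hv.2 hm' hm''),
          sumAB D Λ h1 hG k m s hv.1 hv.2 (by rintro ⟨rfl, h⟩; exact hm h),
          sumEB D Λ hG k (m - 1) s hm' hm'']
        ring
    · rw [cl_gad]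
      have hlt : D.mu k < D.mu (k + 1) := D.hmu (Nat.lt_succ_self k)
      have h5 : D.mu k ≤ D.mu (k + 1) - 1 := by omega
      have h6 : D.mu (k + 1) - 1 < D.mu (k + 1) := by omega
      rw [Finset.sum_union (hd4 k _ s h5 h6), sumGA D Λ h2 hG k s, sumEB D Λ hG k _ s h5 h6]
      ring
    · by_cases hv : D.g k t ≠ 0 ∧ ∀ m, D.mu k ≤ m → m < D.mu (k + 1) → t ∉ D.T k m
      · rw [cl_par D k t s hv]
        have hne : pt k t 0 s ≠ pt k t 1 s := by
          unfold pt; omega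
        have hex : ∀ i : ℤ, ¬ (k = 0 ∧ t ∈ D.T 0 (D.mu 0) ∧ i = iA (D.g 0 t)) := by
          rintro i ⟨hk, ht, -⟩
          subst hk
          exact hv.2 (D.mu 0) le_rfl (D.hmu (Nat.lt_succ_self 0)) ht
        rw [Finset.sum_pair hne, hG.1 k t 0 s hv.1 (Or.inl rfl) (hex 0),
          hG.1 k t 1 s hv.1 (Or.inr rfl) (hex 1)]
        push_cast
        ring
      · rw [cl_par0 D k t s hv, Finset.sum_empty]
  · intro z hz
    by_cases hA : ∃ k t i s, D.g k t ≠ 0 ∧ (i = 0 ∨ i = 1) ∧ z = pt k t i s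
    · exfalso
      obtain ⟨k, t, i, s, hg, hi, rfl⟩ := hA
      by_cases hT : ∃ m, D.mu k ≤ m ∧ m < D.mu (k + 1) ∧ t ∈ D.T k m
      · obtain ⟨m, hm1, hm2, ht⟩ := hT
        rcases eq_iA_or_iE (D.g k t) i hi with hi | hi
        · have hmem : pt k t i s ∈ D.AB k m s := by
            unfold Dat.AB
            exact Finset.mem_image.mpr ⟨t, ht, by rw [hi]⟩
          apply hz (Cl.blk k m s)
          rw [cl_blk D _ _ _ ⟨hm1, hm2⟩]
          exact Finset.mem_union_left _ hmem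
        · have hmem : pt k t i s ∈ D.EB k m s := by
            unfold Dat.EB
            exact Finset.mem_image.mpr ⟨t, ht, by rw [hi]⟩
          by_cases hlast : m + 1 < D.mu (k + 1)
          · apply hz (Cl.blk k (m + 1) s)
            rw [cl_blk D _ _ _ ⟨by omega, hlast⟩, if_neg (by omega)]
            exact Finset.mem_union_right _ (by simpa using hmem)
          · have hm3 : D.mu (k + 1) - 1 = m := by omega
            apply hz (Cl.gad k s)
            rw [cl_gad, hm3]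
            exact Finset.mem_union_right _ hmem
      · apply hz (Cl.par k t s)
        rw [cl_par D _ _ _ ⟨hg, fun m hm1 hm2 ht => hT ⟨m, hm1, hm2, ht⟩⟩]
        rcases hi with rfl | rfl
        · exact Finset.mem_insert_self _ _
        · exact Finset.mem_insert_of_mem (Finset.mem_singleton_self _)
    · by_cases hW : ∃ k, z ∈ GW k (D.Z k)
      · obtain ⟨k, hk⟩ := hW
        rw [hG.2.2.1 k z hk]
        by_cases hc0 : cp k z = 0
        · rw [hc0]; simp
        · exfalso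
          obtain ⟨s, hs, hcase⟩ := (h2 k (D.Z k)).2.2.1 z hc0
          obtain ⟨s', rfl⟩ : ∃ s' : Bool, s = sg s' := by
            rcases hs with rfl | rfl
            · exact ⟨true, rfl⟩
            · exact ⟨false, rfl⟩
          rcases hcase with ⟨hcm, -⟩ | ⟨hcm, hcp⟩
          · apply hz (Cl.gad k s')
            rw [cl_gad]
            apply Finset.mem_union_left
            unfold GA
            exact Finset.mem_filter.mpr ⟨hk, hcm⟩
          · apply hz (Cl.blk (k + 1) (D.mu (k + 1)) s')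
            rw [cl_blk D _ _ _ ⟨le_rfl, D.hmu (Nat.lt_succ_self (k + 1))⟩, if_pos rfl]
            apply Finset.mem_union_right
            have : D.EP (k + 1) s' = GE k (D.Z k) (sg s') := by
              simp [Dat.EP]
            rw [this]
            unfold GE
            exact Finset.mem_filter.mpr ⟨hk, hcm, hcp⟩
      · exact hG.2.2.2 z (fun k t i s hg hi he => hA ⟨k, t, i, s, hg, hi, he⟩)
          (fun k hk => hW ⟨k, hk⟩)

end Pool.Agent.H80.ET
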